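import Pool.Agent.W47.JL.Num

/-!
# Finite-state predictors which read the expansions of several numbers in parallel
-/

set_option autoImplicit false

namespace Run7.h227.JP

open Finset

variable {ι σ : Type}

/-- the state of the machine with transitions `δ` and initial state `s₀` after it has read
the letters `a 0, …, a (n - 1)` -/
def run (δ : σ → (ι → ℤ) → σ) (s₀ : σ) (a : ℕ → ι → ℤ) : ℕ → σ
  | 0 => s₀
  | n + 1 => δ (run δ s₀ a n) (a n)

/-- without errors the machine is autonomous -/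
lemma run_eq (δ : σ → (ι → ℤ) → σ) (s₀ : σ) (out : σ → ι → ℤ) (a : ℕ → ι → ℤ) (u v : ℕ)
    (hno : ∀ i, u ≤ i → i < v → out (run δ s₀ a i) = a i) (i : ℕ) (hi : u + i ≤ v) :
    run δ s₀ a (u + i) = (fun s => δ s (out s))^[i] (run δ s₀ a u) := by
  induction i with
  | zero => rfl
  | succ i ih =>
    rw [Function.iterate_succ_apply', ← ih (by omega), ← add_assoc]
    change δ _ (a (u + i)) = _
    rw [hno (u + i) (by omega) (by omega)]

/-- a stretch without errors is periodic after at most `card σ` steps -/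
lemma periodic_stretch [Fintype σ] (δ : σ → (ι → ℤ) → σ) (s₀ : σ) (out : σ → ι → ℤ)
    (a : ℕ → ι → ℤ) (u v : ℕ) (hno : ∀ i, u ≤ i → i < v → out (run δ s₀ a i) = a i) :
    ∃ s p : ℕ, 1 ≤ p ∧ s + p ≤ Fintype.card σ ∧
      ∀ i, s ≤ i → u + i + p < v → a (u + i + p) = a (u + i) := by
  obtain ⟨f, hf⟩ : ∃ f : σ → σ, f = fun s => δ s (out s) := ⟨_, rfl⟩
  obtain ⟨i, j, hij, hfij⟩ := Fintype.exists_ne_map_eq_of_card_lt
    (fun i : Fin (Fintype.card σ + 1) => f^[(i : ℕ)] (run δ s₀ a u)) (by simp)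
  wlog hlt : (i : ℕ) < j with H
  · exact H δ s₀ out a u v hno f hf j i hij.symm hfij.symm (by
      have : (i : ℕ) ≠ j := fun h => hij (Fin.ext h)
      omega)
  obtain ⟨p, hp⟩ : ∃ p : ℕ, (j : ℕ) = i + p := ⟨j - i, by omega⟩
  have hfij' : f^[(i : ℕ)] (run δ s₀ a u) = f^[(j : ℕ)] (run δ s₀ a u) := hfij
  have hper : ∀ l, f^[(i : ℕ) + l + p] (run δ s₀ a u) = f^[(i : ℕ) + l] (run δ s₀ a u) := by
    intro l
    have e1 : (i : ℕ) + l + p = l + (i + p) := by omega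
    have e2 : (i : ℕ) + l = l + i := by omega
    rw [e1, e2, Function.iterate_add_apply, Function.iterate_add_apply f l i, ← hp, ← hfij']
  refine ⟨i, p, by omega, by have := j.2; omega, fun l hl hlv => ?_⟩
  obtain ⟨l', rfl⟩ : ∃ l', l = i + l' := ⟨l - i, by omega⟩
  have h1 := hno (u + ((i : ℕ) + l')) (by omega) (by omega)
  have h2 := hno (u + ((i : ℕ) + l') + p) (by omega) (by omega)
  rw [run_eq δ s₀ out a u v hno _ (by omega)] at h1
  rw [add_assoc u, run_eq δ s₀ out a u v hno _ (by omega)] at h2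
  rw [← hf] at h1 h2
  rw [hper l', h1] at h2
  rw [add_assoc u]
  exact h2.symm

/-- the tails of an expansion -/
def tail (b : ℕ) (y : ℝ) (a : ℕ → ℤ) : ℕ → ℝ
  | 0 => y
  | n + 1 => b * tail b y a n - a n

lemma tail_hasSum (b : ℕ) (hb : 2 ≤ b) (y : ℝ) (a : ℕ → ℤ)
    (hy : HasSum (fun i : ℕ => (a i : ℝ) / (b : ℝ) ^ (i + 1)) y) (n : ℕ) :
    HasSum (fun i : ℕ => (a (n + i) : ℝ) / (b : ℝ) ^ (i + 1)) (tail b y a n) := by
  have hb0 : (b : ℝ) ≠ 0 := by
    have : b ≠ 0 := by omega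
    exact_mod_cast this
  induction n with
  | zero => simpa [tail] using hy
  | succ n ih =>
    have h1 := (hasSum_nat_add_iff' (f := fun i : ℕ => (a (n + i) : ℝ) / (b : ℝ) ^ (i + 1)) 1).2 ih
    have h2 := h1.mul_left (b : ℝ)
    have e1 : (b : ℝ) * (tail b y a n - ∑ i ∈ range 1, (a (n + i) : ℝ) / (b : ℝ) ^ (i + 1)) =
        tail b y a (n + 1) := by
      simp only [tail, range_one, sum_singleton, zero_add, pow_one, add_zero]
      field_simp
    rw [e1] at h2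
    refine h2.congr_fun ?_ |> id
    intro i
    rw [pow_succ (b : ℝ) (i + 1), show n + 1 + i = n + (i + 1) by ring]
    field_simp

lemma tail_le (b : ℕ) (hb : 2 ≤ b) (y : ℝ) (a : ℕ → ℤ) (B : ℝ) (ha : ∀ i, |(a i : ℝ)| ≤ B)
    (hy : HasSum (fun i : ℕ => (a i : ℝ) / (b : ℝ) ^ (i + 1)) y) (n : ℕ) :
    |tail b y a n| ≤ B := by
  have hb2 : (2 : ℝ) ≤ b := by exact_mod_cast hb
  have hB : 0 ≤ B := (abs_nonneg _).trans (ha 0)
  have hs := tail_hasSum b hb y a hy n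
  have hg : HasSum (fun i : ℕ => B * (1 / (2 : ℝ)) ^ (i + 1)) B := by
    have h1 : HasSum (fun i : ℕ => (1 / (2 : ℝ)) ^ i) 2 := hasSum_geometric_two
    have h2 := (h1.mul_left (B * (1 / 2)))
    have e : B * (1 / 2) * 2 = B := by ring
    rw [e] at h2
    refine h2.congr_fun ?_ |> id
    intro i
    rw [pow_succ]
    ring
  have hle : ∀ i : ℕ, ‖(a (n + i) : ℝ) / (b : ℝ) ^ (i + 1)‖ ≤ B * (1 / (2 : ℝ)) ^ (i + 1) := by
    intro i
    rw [norm_div, Real.norm_eq_abs, norm_pow, Real.norm_eq_abs, abs_of_nonneg (by linarith : (0:ℝ) ≤ b),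
      div_eq_mul_one_div, one_div_pow]
    refine mul_le_mul (ha _) ?_ (by positivity) hB
    exact one_div_le_one_div_of_le (by positivity) (pow_le_pow_left₀ (by norm_num) hb2 _)
  have h3 := tsum_of_norm_bounded hg hle
  rw [hs.tsum_eq] at h3
  exact h3

lemma tail_int (b : ℕ) (y : ℝ) (a : ℕ → ℤ) (n : ℕ) :
    ∃ P : ℤ, tail b y a n = (b : ℝ) ^ n * y - P := by
  induction n with
  | zero => exact ⟨0, by simp [tail]⟩
  | succ n ih =>
    obtain ⟨P, hP⟩ := ih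
    refine ⟨b * P + a n, ?_⟩
    simp only [tail, hP]
    push_cast
    ring

lemma tail_per (b : ℕ) (y : ℝ) (a : ℕ → ℤ) (m n w : ℕ) (h : ∀ i, i < w → a (m + i) = a (n + i)) :
    tail b y a (m + w) - tail b y a (n + w) = (b : ℝ) ^ w * (tail b y a m - tail b y a n) := by
  induction w with
  | zero => simp
  | succ w ih =>
    have h1 := ih fun i hi => h i (by omega)
    have h2 := h w (by omega)
    rw [← add_assoc, ← add_assoc]
    simp only [tail]
    rw [h2, pow_succ]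
    linear_combination (b : ℝ) * h1

/-- the length of a stretch without errors -/
theorem stretch (x : ι → ℝ) (K : ℕ) (c0 : ℝ) (hc0 : 0 < c0)
    (hM : ∀ q : ℕ, 1 ≤ q → ∀ p : ι → ℤ, ∃ j, c0 ≤ (q : ℝ) ^ K * |q * x j - p j|)
    (h b : ℕ) (hb : 2 ≤ b) (a : ℕ → ι → ℤ) (ha : ∀ i j, |a i j| ≤ ((b ^ h : ℕ) : ℤ))
    (hx : ∀ j, ∃ n : ℤ, HasSum (fun i : ℕ => (a i j : ℝ) / (b : ℝ) ^ (i + 1)) (x j - n))
    (u v s p Q : ℕ) (hp : 1 ≤ p) (hsp : s + p ≤ Q)
    (hper : ∀ i, s ≤ i → u + i + p < v → a (u + i + p) = a (u + i)) :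
    (v : ℝ) ≤ (K + 1) * (u + Q) + (h + |Real.log (2 / c0)| / Real.log 2) := by
  have hb2 : (2 : ℝ) ≤ b := by exact_mod_cast hb
  have hb0 : (0 : ℝ) < b := by linarith
  have hl2 : 0 < Real.log 2 := Real.log_pos (by norm_num)
  have hlb : Real.log 2 ≤ Real.log b := Real.log_le_log (by norm_num) hb2
  have hlb0 : 0 < Real.log b := by linarith
  have hu0 : (0 : ℝ) ≤ u := Nat.cast_nonneg u
  have hQ0 : (0 : ℝ) ≤ Q := Nat.cast_nonneg Q
  have hK0 : (0 : ℝ) ≤ K := Nat.cast_nonneg K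
  have hh0 : (0 : ℝ) ≤ h := Nat.cast_nonneg h
  have hC0 : 0 ≤ |Real.log (2 / c0)| / Real.log 2 := by positivity
  rcases le_or_gt v (u + (s + p)) with hv | hv
  · have h1 : (v : ℝ) ≤ u + Q := by exact_mod_cast (by omega : v ≤ u + Q)
    nlinarith [mul_nonneg hK0 (add_nonneg hu0 hQ0)]
  obtain ⟨w, hw⟩ : ∃ w : ℕ, v = u + (s + p) + w := ⟨v - (u + (s + p)), by omega⟩
  obtain ⟨q, hq⟩ : ∃ q : ℕ, q = b ^ (u + s + p) - b ^ (u + s) := ⟨_, rfl⟩
  have hlt : b ^ (u + s) < b ^ (u + s + p) := Nat.pow_lt_pow_right (by omega) (by omega)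
  have hq1 : 1 ≤ q := by omega
  have hqR : (q : ℝ) = (b : ℝ) ^ (u + s + p) - (b : ℝ) ^ (u + s) := by
    rw [hq, Nat.cast_sub hlt.le]; push_cast; ring
  have hq1R : (1 : ℝ) ≤ q := by exact_mod_cast hq1
  have hqle : (q : ℝ) ≤ (b : ℝ) ^ (u + Q) := by
    have h1 : (b : ℝ) ^ (u + s + p) ≤ (b : ℝ) ^ (u + Q) :=
      pow_le_pow_right₀ (by linarith) (by omega)
    have h2 : (0 : ℝ) ≤ (b : ℝ) ^ (u + s) := by positivity
    linarith
  choose n hn using hx
  have hP : ∀ j, ∃ P : ℤ, |(q : ℝ) * x j - P| * (b : ℝ) ^ w ≤ 2 * (b : ℝ) ^ h := by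
    intro j
    obtain ⟨P1, hP1⟩ := tail_int b (x j - n j) (fun i => a i j) (u + s + p)
    obtain ⟨P2, hP2⟩ := tail_int b (x j - n j) (fun i => a i j) (u + s)
    have h1 := tail_per b (x j - n j) (fun i => a i j) (u + s + p) (u + s) w (fun i hi => by
      have := congrFun (hper (s + i) (by omega) (by omega)) j
      rw [show u + (s + i) + p = u + s + p + i by ring, show u + (s + i) = u + s + i by ring] at this
      exact this)
    have hB : ∀ i, |((a i j : ℤ) : ℝ)| ≤ (b : ℝ) ^ h := by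
      intro i
      have := ha i j
      have h2 : ((|a i j| : ℤ) : ℝ) ≤ ((b ^ h : ℕ) : ℝ) := by exact_mod_cast this
      rw [Int.cast_abs] at h2
      rw [Nat.cast_pow] at h2
      exact h2
    have h2 := tail_le b hb (x j - n j) (fun i => a i j) ((b : ℝ) ^ h) hB (hn j) (u + s + p + w)
    have h3 := tail_le b hb (x j - n j) (fun i => a i j) ((b : ℝ) ^ h) hB (hn j) (u + s + w)
    refine ⟨P1 - P2 + ((b : ℤ) ^ (u + s + p) - (b : ℤ) ^ (u + s)) * n j, ?_⟩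
    have e1 : (q : ℝ) * x j - ((P1 - P2 + ((b : ℤ) ^ (u + s + p) - (b : ℤ) ^ (u + s)) * n j : ℤ) : ℝ) =
        tail b (x j - n j) (fun i => a i j) (u + s + p) -
          tail b (x j - n j) (fun i => a i j) (u + s) := by
      rw [hP1, hP2, hqR]
      push_cast
      ring
    have hbw : (0 : ℝ) ≤ (b : ℝ) ^ w := by positivity
    have e2 : ∀ D : ℝ, |D| * (b : ℝ) ^ w = |(b : ℝ) ^ w * D| := fun D => by
      rw [abs_mul, abs_of_nonneg hbw, mul_comm]
    rw [e1, e2, ← h1]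
    refine (abs_sub _ _).trans ?_
    linarith
  choose P hP using hP
  obtain ⟨j, hj⟩ := hM q hq1 P
  have h2 : c0 * (b : ℝ) ^ w ≤ 2 * (b : ℝ) ^ (K * (u + Q) + h) := by
    calc c0 * (b : ℝ) ^ w ≤ ((q : ℝ) ^ K * |(q : ℝ) * x j - P j|) * (b : ℝ) ^ w :=
          mul_le_mul_of_nonneg_right hj (by positivity)
      _ = (q : ℝ) ^ K * (|(q : ℝ) * x j - P j| * (b : ℝ) ^ w) := by ring
      _ ≤ (q : ℝ) ^ K * (2 * (b : ℝ) ^ h) := mul_le_mul_of_nonneg_left (hP j) (by positivity)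
      _ ≤ ((b : ℝ) ^ (u + Q)) ^ K * (2 * (b : ℝ) ^ h) :=
          mul_le_mul_of_nonneg_right (pow_le_pow_left₀ (by linarith) hqle _) (by positivity)
      _ = _ := by rw [← pow_mul, pow_add, mul_comm (u + Q) K]; ring
  have h3 := Real.log_le_log (by positivity) h2
  rw [Real.log_mul hc0.ne' (by positivity), Real.log_pow, Real.log_mul (by norm_num) (by positivity),
    Real.log_pow] at h3
  have h4 : Real.log (2 / c0) = Real.log 2 - Real.log c0 := Real.log_div (by norm_num) hc0.ne'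
  have h5 : Real.log (2 / c0) ≤ |Real.log (2 / c0)| := le_abs_self _
  have h6 : |Real.log (2 / c0)| ≤ |Real.log (2 / c0)| / Real.log 2 * Real.log b := by
    rw [div_mul_eq_mul_div, le_div_iff₀ hl2]
    exact mul_le_mul_of_nonneg_left hlb (abs_nonneg _)
  have h7 : (w : ℝ) * Real.log b ≤
      (K * (u + Q) + h + |Real.log (2 / c0)| / Real.log 2) * Real.log b := by
    push_cast at h3
    nlinarith
  have h8 := le_of_mul_le_mul_right h7 hlb0
  have h9 : (v : ℝ) ≤ u + Q + w := by exact_mod_cast (by omega : v ≤ u + Q + w)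
  nlinarith

/-- the number of `n < N` such that the machine, having read `a 0, …, a (n - 1)`, does not predict
`a n` correctly (in all components) -/
noncomputable def errors (δ : σ → (ι → ℤ) → σ) (s₀ : σ) (out : σ → ι → ℤ) (a : ℕ → ι → ℤ)
    (N : ℕ) : ℕ := by
  classical
  exact ((range N).filter fun n => out (run δ s₀ a n) ≠ a n).card

/-- **One machine for all the numbers.** -/
theorem joint (x : ι → ℝ) (K : ℕ) (hK : 1 ≤ K) (c0 : ℝ) (hc0 : 0 < c0)
    (hM : ∀ q : ℕ, 1 ≤ q → ∀ p : ι → ℤ, ∃ j, c0 ≤ (q : ℝ) ^ K * |q * x j - p j|) (h : ℕ) :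
    ∃ C : ℝ, 0 ≤ C ∧ ∀ b : ℕ, 2 ≤ b → ∀ a : ℕ → ι → ℤ, (∀ i j, |a i j| ≤ ((b ^ h : ℕ) : ℤ)) →
      (∀ j, ∃ n : ℤ, HasSum (fun i : ℕ => (a i j : ℝ) / (b : ℝ) ^ (i + 1)) (x j - n)) →
      ∀ (σ : Type) [Fintype σ] (δ : σ → (ι → ℤ) → σ) (s₀ : σ) (out : σ → ι → ℤ) (N : ℕ),
      (N : ℝ) ≤ (∑ i ∈ range (errors δ s₀ out a N + 1), ((K : ℝ) + 1) ^ (i + 1)) *
        (Fintype.card σ + C) := by
  classical
  obtain ⟨β, hβ⟩ : ∃ β : ℝ, β = h + |Real.log (2 / c0)| / Real.log 2 := ⟨_, rfl⟩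
  have hl2 : 0 < Real.log 2 := Real.log_pos (by norm_num)
  have hβ0 : 0 ≤ β := by rw [hβ]; positivity
  have hK1 : (1 : ℝ) ≤ K := by exact_mod_cast hK
  refine ⟨β + 1 + β, by positivity, ?_⟩
  intro b hb a ha hx σ _ δ s₀ out N
  have hmain := Pool.Agent.W47.JL.rec_final ((K : ℝ) + 1) 0 β (Fintype.card σ : ℝ) 0
    (by linarith) le_rfl hβ0 (Nat.cast_nonneg _) (by simp) le_rfl
    ((range N).filter fun n => out (run δ s₀ a n) ≠ a n) N
    (errors δ s₀ out a N) (by unfold errors; exact le_of_eq (by congr)) (fun u v huv hvN hE => by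
      have hno : ∀ i, u ≤ i → i < v → out (run δ s₀ a i) = a i := by
        intro i hui hiv
        by_contra hne
        rcases hE i (Finset.mem_filter.2 ⟨Finset.mem_range.2 (by omega), hne⟩) with h | h <;> omega
      obtain ⟨s, p, hp, hsp, hper⟩ := periodic_stretch δ s₀ out a u v hno
      have h1 := stretch x K c0 hc0 hM h b hb a ha hx u v s p (Fintype.card σ) hp hsp hper
      rw [← hβ] at h1
      simpa using h1)
  refine hmain.trans (le_of_eq ?_)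
  unfold Pool.Agent.W47.JL.M2
  ring

lemma geom_le (κ : ℝ) (hκ : 2 ≤ κ) (k : ℕ) :
    ∑ i ∈ range (k + 1), κ ^ (i + 1) ≤ 2 * κ ^ (k + 1) := by
  induction k with
  | zero =>
    simp only [zero_add, range_one, sum_singleton, pow_one]
    linarith
  | succ k ih =>
    rw [Finset.sum_range_succ]
    have h1 : κ ^ (k + 1 + 1) = κ * κ ^ (k + 1) := by rw [pow_succ]; ring
    have h2 : 0 < κ ^ (k + 1) := by positivity
    nlinarith

/-- at every large scale every machine with few states makes many errors -/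
theorem large (x : ι → ℝ) (K : ℕ) (hK : 1 ≤ K) (c0 : ℝ) (hc0 : 0 < c0)
    (hM : ∀ q : ℕ, 1 ≤ q → ∀ p : ι → ℤ, ∃ j, c0 ≤ (q : ℝ) ^ K * |q * x j - p j|) (h : ℕ)
    (θ c : ℝ) (hθ : 0 ≤ θ) (hc : 0 ≤ c) (hlt : θ + c * Real.log ((K : ℝ) + 1) < 1) :
    ∃ N₀ : ℕ, ∀ b : ℕ, 2 ≤ b → ∀ a : ℕ → ι → ℤ, (∀ i j, |a i j| ≤ ((b ^ h : ℕ) : ℤ)) →
      (∀ j, ∃ n : ℤ, HasSum (fun i : ℕ => (a i j : ℝ) / (b : ℝ) ^ (i + 1)) (x j - n)) →
      ∀ N : ℕ, N₀ ≤ N → ∀ (σ : Type) [Fintype σ] (δ : σ → (ι → ℤ) → σ) (s₀ : σ)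
      (out : σ → ι → ℤ), (Fintype.card σ : ℝ) ≤ (N : ℝ) ^ θ →
      c * Real.log N < errors δ s₀ out a N := by
  obtain ⟨C, hC0, hC⟩ := joint x K hK c0 hc0 hM h
  have hK1 : (1 : ℝ) ≤ K := by exact_mod_cast hK
  obtain ⟨κ, hκ⟩ : ∃ κ : ℝ, κ = (K : ℝ) + 1 := ⟨_, rfl⟩
  rw [← hκ] at hlt hC
  have hκ2 : 2 ≤ κ := by rw [hκ]; linarith
  have hκ0 : 0 < κ := by linarith
  obtain ⟨γ, hγ⟩ : ∃ γ : ℝ, γ = 1 - (θ + c * Real.log κ) := ⟨_, rfl⟩
  have hγ0 : 0 < γ := by rw [hγ]; linarith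
  obtain ⟨N₀, hN₀⟩ := Filter.eventually_atTop.1
    (((tendsto_rpow_atTop hγ0).comp tendsto_natCast_atTop_atTop).eventually_gt_atTop
      (2 * κ * (1 + C)))
  refine ⟨max N₀ 1, fun b hb a ha hx N hN σ _ δ s₀ out hcard => ?_⟩
  have hN1 : 1 ≤ N := (le_max_right _ _).trans hN
  have hNR : (1 : ℝ) ≤ N := by exact_mod_cast hN1
  have hNp : (0 : ℝ) < N := by linarith
  by_contra hcon
  push Not at hcon
  have h1 := hC b hb a ha hx σ δ s₀ out N
  have h2 := hN₀ N ((le_max_left _ _).trans hN)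
  have h3 := geom_le κ hκ2 (errors δ s₀ out a N)
  have h4 : κ ^ (errors δ s₀ out a N + 1) ≤ κ * (N : ℝ) ^ (c * Real.log κ) := by
    rw [pow_succ, mul_comm]
    refine mul_le_mul_of_nonneg_left ?_ hκ0.le
    rw [← Real.rpow_natCast, Real.rpow_def_of_pos hκ0, Real.rpow_def_of_pos hNp]
    refine Real.exp_le_exp.2 ?_
    have hlκ : 0 ≤ Real.log κ := Real.log_nonneg (by linarith)
    nlinarith [mul_le_mul_of_nonneg_left hcon hlκ]
  have h5 : (1 : ℝ) ≤ (N : ℝ) ^ θ := Real.one_le_rpow hNR hθ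
  have h6 : (Fintype.card σ : ℝ) + C ≤ (1 + C) * (N : ℝ) ^ θ := by nlinarith
  have h7 : (N : ℝ) ≤ 2 * κ * (1 + C) * ((N : ℝ) ^ (c * Real.log κ) * (N : ℝ) ^ θ) := by
    calc (N : ℝ) ≤ (∑ i ∈ range (errors δ s₀ out a N + 1), κ ^ (i + 1)) *
        (Fintype.card σ + C) := h1
      _ ≤ (2 * (κ * (N : ℝ) ^ (c * Real.log κ))) * ((1 + C) * (N : ℝ) ^ θ) := by
          refine mul_le_mul (h3.trans (by linarith)) h6 (by positivity) (by positivity)
      _ = _ := by ring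
  have h8 : (N : ℝ) = (N : ℝ) ^ γ * ((N : ℝ) ^ (c * Real.log κ) * (N : ℝ) ^ θ) := by
    rw [← Real.rpow_add hNp, ← Real.rpow_add hNp, hγ]
    have : 1 - (θ + c * Real.log κ) + (c * Real.log κ + θ) = 1 := by ring
    rw [this, Real.rpow_one]
  have h9 : 0 < (N : ℝ) ^ (c * Real.log κ) * (N : ℝ) ^ θ := by positivity
  have h10 : (2 * κ * (1 + C)) * ((N : ℝ) ^ (c * Real.log κ) * (N : ℝ) ^ θ) <
      (N : ℝ) ^ γ * ((N : ℝ) ^ (c * Real.log κ) * (N : ℝ) ^ θ) :=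
    mul_lt_mul_of_pos_right h2 h9
  rw [← h8] at h10
  linarith

/-- the states of the product machine -/
lemma run_prod {J : Type} (S : J → Type) (δ : ∀ j, S j → (ι → ℤ) → S j) (s₀ : ∀ j, S j)
    (a : ℕ → ι → ℤ) (n : ℕ) :
    run (fun (s : ∀ j, S j) d j => δ j (s j) d) s₀ a n = fun j => run (δ j) (s₀ j) a n := by
  induction n with
  | zero => rfl
  | succ n ih =>
    change (fun j => δ j (run (fun (s : ∀ j, S j) d j => δ j (s j) d) s₀ a n j) (a n)) = _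
    rw [ih]
    rfl

/-- the number of `n < N` such that the machine, having read `a 0, …, a (n - 1)`, does not predict
`a n j` correctly -/
noncomputable def errorsAt (δ : σ → (ι → ℤ) → σ) (s₀ : σ) (out : σ → ℤ) (a : ℕ → ι → ℤ)
    (j : ι) (N : ℕ) : ℕ := by
  classical
  exact ((range N).filter fun n => out (run δ s₀ a n) ≠ a n j).card

/-- the number of errors of the product machine -/
lemma errors_prod [Fintype ι] (S : ι → Type) (δ : ∀ j, S j → (ι → ℤ) → S j) (s₀ : ∀ j, S j)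
    (out : ∀ j, S j → ℤ) (a : ℕ → ι → ℤ) (N : ℕ) :
    errors (fun (s : ∀ j, S j) d j => δ j (s j) d) s₀ (fun s j => out j (s j)) a N ≤
      ∑ j, errorsAt (δ j) (s₀ j) (out j) a j N := by
  classical
  have hE : ∑ j, errorsAt (δ j) (s₀ j) (out j) a j N =
      ∑ j, ((range N).filter fun n => out j (run (δ j) (s₀ j) a n) ≠ a n j).card := by
    refine Finset.sum_congr rfl fun j _ => ?_
    unfold errorsAt
    congr
  rw [hE]
  refine le_trans ?_ Finset.card_biUnion_le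
  unfold errors
  refine Finset.card_le_card ?_
  intro n hn
  simp only [Finset.mem_filter] at hn
  rw [run_prod] at hn
  have h1 : ∃ j, out j (run (δ j) (s₀ j) a n) ≠ a n j := by
    by_contra hcon
    push Not at hcon
    exact hn.2 (funext hcon)
  obtain ⟨j, hj⟩ := h1
  exact Finset.mem_biUnion.2 ⟨j, Finset.mem_univ _, Finset.mem_filter.2 ⟨hn.1, hj⟩⟩

/-- at every large scale one of the numbers is hard, even for the machines which read all the
expansions -/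
theorem each [Fintype ι] [Nonempty ι] (x : ι → ℝ) (K : ℕ) (hK : 1 ≤ K) (c0 : ℝ) (hc0 : 0 < c0)
    (hM : ∀ q : ℕ, 1 ≤ q → ∀ p : ι → ℤ, ∃ j, c0 ≤ (q : ℝ) ^ K * |q * x j - p j|) (h : ℕ)
    (θ c : ℝ) (hθ : 0 ≤ θ) (hc : 0 ≤ c)
    (hlt : Fintype.card ι * (θ + c * Real.log ((K : ℝ) + 1)) < 1) :
    ∃ N₀ : ℕ, ∀ b : ℕ, 2 ≤ b → ∀ a : ℕ → ι → ℤ, (∀ i j, |a i j| ≤ ((b ^ h : ℕ) : ℤ)) →
      (∀ j, ∃ n : ℤ, HasSum (fun i : ℕ => (a i j : ℝ) / (b : ℝ) ^ (i + 1)) (x j - n)) →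
      ∀ N : ℕ, N₀ ≤ N → ∃ j, ∀ (Q : ℕ) (δ : Fin Q → (ι → ℤ) → Fin Q) (s₀ : Fin Q)
      (out : Fin Q → ℤ), (Q : ℝ) ≤ (N : ℝ) ^ θ →
      c * Real.log N < errorsAt δ s₀ out a j N := by
  classical
  have hJ : (0 : ℝ) < Fintype.card ι := by exact_mod_cast Fintype.card_pos
  obtain ⟨N₀, hN₀⟩ := large x K hK c0 hc0 hM h (Fintype.card ι * θ) (Fintype.card ι * c)
    (by positivity) (by positivity) (by nlinarith)
  refine ⟨max N₀ 1, fun b hb a ha hx N hN => ?_⟩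
  have hN1 : 1 ≤ N := (le_max_right _ _).trans hN
  have hNR : (1 : ℝ) ≤ N := by exact_mod_cast hN1
  by_contra hcon
  push Not at hcon
  choose Q δ s₀ out hQ herr using hcon
  have h1 := hN₀ b hb a ha hx N ((le_max_left _ _).trans hN) (∀ j, Fin (Q j))
    (fun s d j => δ j (s j) d) s₀ (fun s j => out j (s j)) (by
      rw [Fintype.card_pi]
      push_cast
      simp only [Fintype.card_fin]
      calc (∏ j, (Q j : ℝ)) ≤ ∏ _j : ι, (N : ℝ) ^ θ :=
            Finset.prod_le_prod (fun j _ => Nat.cast_nonneg _) fun j _ => hQ j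
        _ = (N : ℝ) ^ (Fintype.card ι * θ) := by
            rw [Finset.prod_const, Finset.card_univ, ← Real.rpow_natCast, ← Real.rpow_mul (by linarith),
              mul_comm])
  have h2 := errors_prod (fun j => Fin (Q j)) δ s₀ out a N
  have h3 : ((errors (fun (s : ∀ j, Fin (Q j)) d j => δ j (s j) d) s₀ (fun s j => out j (s j)) a N :
      ℕ) : ℝ) ≤ ∑ j, (errorsAt (δ j) (s₀ j) (out j) a j N : ℝ) := by exact_mod_cast h2
  have h4 : ∑ j, (errorsAt (δ j) (s₀ j) (out j) a j N : ℝ) ≤ ∑ _j : ι, c * Real.log N :=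
    Finset.sum_le_sum fun j _ => herr j
  rw [Finset.sum_const, Finset.card_univ, nsmul_eq_mul] at h4
  linarith

end Run7.h227.JP
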