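import Pool.Agent.R473.FV.Cor

/-!
# Several finite-state predictors at every large scale, uniformly in the bases
-/

set_option autoImplicit false

namespace Run7.h227.JP

open Finset
open Pool.Agent.H831R3.LC (dig)
open Pool.Agent.R473.FP (errors)

variable {ι : Type} [Fintype ι] [DecidableEq ι]

lemma geom0_le (κ : ℝ) (hκ : 2 ≤ κ) (k : ℕ) : ∑ i ∈ range (k + 1), κ ^ i ≤ 2 * κ ^ k := by
  induction k with
  | zero => simp
  | succ k ih =>
    rw [Finset.sum_range_succ]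
    have h1 : κ ^ (k + 1) = κ * κ ^ k := by rw [pow_succ]; ring
    have h2 : 0 < κ ^ k := by positivity
    nlinarith

/-- At every large scale `X`, for all bases, one of the numbers is hard: every predictor with
`Q log b ≤ X ^ θ` makes more than `c log X` errors on its first `X / log b` digits. -/
theorem sep_large (x : ι → ℝ) (μ c0 : ℝ) (hμ : 2 ≤ μ) (hc0 : 0 < c0)
    (hM : ∀ q : ℕ, 1 ≤ q → ∀ p : ι → ℤ, ∃ j, c0 ≤ (q : ℝ) ^ (μ - 1) * |q * x j - p j|)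
    (θ c : ℝ) (hθ : 0 ≤ θ) (hc : 0 ≤ c)
    (hlt : θ + c * (Fintype.card ι * Real.log (Fintype.card ι * μ)) < 1) :
    ∃ X₀ : ℝ, ∀ b : ι → ℕ, (∀ j, 2 ≤ b j) → ∀ X : ℝ, X₀ ≤ X →
      ∃ j, ∀ (Q : ℕ) (δ : Fin Q → ℤ → Fin Q) (q₀ : Fin Q) (out : Fin Q → ℤ),
      Q * Real.log (b j) ≤ X ^ θ →
      c * Real.log X < errors δ q₀ out (dig (x j) (b j)) ⌈X / Real.log (b j)⌉₊ := by
  classical
  obtain ⟨j0, -⟩ := hM 1 le_rfl (fun _ => 0)
  obtain ⟨m, hm⟩ : ∃ m : ℝ, m = Fintype.card ι := ⟨_, rfl⟩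
  have hm1 : 1 ≤ m := by
    have : 0 < Fintype.card ι := Fintype.card_pos_iff.2 ⟨j0⟩
    rw [hm]
    exact_mod_cast this
  rw [← hm] at hlt
  obtain ⟨K, hK⟩ : ∃ K : ℝ, K = m * μ := ⟨_, rfl⟩
  rw [← hK] at hlt
  have hK2 : 2 ≤ K := by rw [hK]; nlinarith
  have hK0 : 0 < K := by linarith
  have hlK : 0 ≤ Real.log K := Real.log_nonneg (by linarith)
  obtain ⟨C, hC⟩ : ∃ C : ℝ, C = Real.log 2 + |Real.log c0| := ⟨_, rfl⟩
  have hl2 : 0 < Real.log 2 := Real.log_pos (by norm_num)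
  have hC0 : 0 ≤ C := by
    rw [hC]
    have h2 := abs_nonneg (Real.log c0)
    linarith
  obtain ⟨γ, hγ⟩ : ∃ γ : ℝ, γ = 1 - (θ + c * (m * Real.log K)) := ⟨_, rfl⟩
  have hγ0 : 0 < γ := by rw [hγ]; linarith
  obtain ⟨X₀, hX₀⟩ := Filter.eventually_atTop.1
    ((tendsto_rpow_atTop hγ0).eventually_gt_atTop (2 * (2 * μ * m + C)))
  refine ⟨max X₀ 1, fun b hb X hX => ?_⟩
  have hX1 : 1 ≤ X := (le_max_right _ _).trans hX
  have hXp : 0 < X := by linarith
  have h2 := hX₀ X ((le_max_left _ _).trans hX)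
  have hbR : ∀ j, (2 : ℝ) ≤ b j := fun j => by exact_mod_cast hb j
  have hlb0 : ∀ j, 0 < Real.log (b j) := fun j => Real.log_pos (by linarith [hbR j])
  by_contra hcon
  push Not at hcon
  choose Q δ q₀ out hQ hE using hcon
  obtain ⟨j, hj⟩ := Pool.Agent.R473.FV.separate x μ c0 (by linarith) hc0 hM b hb Q δ q₀ out
    (fun j => ⌈X / Real.log (b j)⌉₊)
  obtain ⟨E, hEE⟩ : ∃ E : ℕ, E = ∑ j, errors (δ j) (q₀ j) (out j) (dig (x j) (b j))
    ⌈X / Real.log (b j)⌉₊ := ⟨_, rfl⟩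
  rw [← hEE, ← hm, ← hK, ← hC] at hj
  have h0 : X ≤ ⌈X / Real.log (b j)⌉₊ * Real.log (b j) := by
    have h1 := Nat.le_ceil (X / Real.log (b j))
    rwa [div_le_iff₀ (hlb0 j)] at h1
  have hEb : (E : ℝ) ≤ m * c * Real.log X := by
    rw [hEE]
    push_cast
    calc ∑ j, (errors (δ j) (q₀ j) (out j) (dig (x j) (b j)) ⌈X / Real.log (b j)⌉₊ : ℝ) ≤
          ∑ _j : ι, c * Real.log X := Finset.sum_le_sum fun j _ => hE j
      _ = _ := by rw [Finset.sum_const, nsmul_eq_mul, hm]; simp; ring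
  have hXθ : 1 ≤ X ^ θ := Real.one_le_rpow hX1 hθ
  have hKE : K ^ E ≤ X ^ (c * (m * Real.log K)) := by
    rw [← Real.rpow_natCast K E, Real.rpow_def_of_pos hK0, Real.rpow_def_of_pos hXp,
      Real.exp_le_exp]
    have h3 := mul_le_mul_of_nonneg_left hEb hlK
    linarith
  have hQs : μ * ∑ j, ((Q j : ℝ) + 1) * Real.log (b j) + C ≤ (2 * μ * m + C) * X ^ θ := by
    have h1 : ∑ j, ((Q j : ℝ) + 1) * Real.log (b j) ≤ ∑ _j : ι, 2 * X ^ θ := by
      refine Finset.sum_le_sum fun i _ => ?_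
      have h3 : (1 : ℝ) ≤ Q i := by
        have : 0 < Q i := Fin.pos (q₀ i)
        exact_mod_cast this
      have h4 := hQ i
      have h5 := mul_le_mul_of_nonneg_right h3 (hlb0 i).le
      linarith
    rw [Finset.sum_const, nsmul_eq_mul, Finset.card_univ, ← hm] at h1
    have h2 := mul_le_mul_of_nonneg_left h1 (by linarith : (0 : ℝ) ≤ μ)
    nlinarith
  have hS0 : 0 ≤ ∑ j, ((Q j : ℝ) + 1) * Real.log (b j) :=
    Finset.sum_nonneg fun i _ => mul_nonneg (by positivity) (hlb0 i).le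
  have hfin : X ≤ (2 * (2 * μ * m + C)) * (X ^ (c * (m * Real.log K)) * X ^ θ) := by
    calc X ≤ ⌈X / Real.log (b j)⌉₊ * Real.log (b j) := h0
      _ ≤ _ := hj
      _ ≤ (2 * X ^ (c * (m * Real.log K))) * ((2 * μ * m + C) * X ^ θ) := by
          refine mul_le_mul ((geom0_le K hK2 E).trans (by linarith)) hQs ?_ (by positivity)
          have : 0 ≤ μ * ∑ j, ((Q j : ℝ) + 1) * Real.log (b j) := mul_nonneg (by linarith) hS0
          linarith
      _ = _ := by ring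
  have h8 : X = X ^ γ * (X ^ (c * (m * Real.log K)) * X ^ θ) := by
    rw [← Real.rpow_add hXp, ← Real.rpow_add hXp, hγ]
    have : 1 - (θ + c * (m * Real.log K)) + (c * (m * Real.log K) + θ) = 1 := by ring
    rw [this, Real.rpow_one]
  have h9 : 0 < X ^ (c * (m * Real.log K)) * X ^ θ := by positivity
  have h10 : (2 * (2 * μ * m + C)) * (X ^ (c * (m * Real.log K)) * X ^ θ) <
      X ^ γ * (X ^ (c * (m * Real.log K)) * X ^ θ) := mul_lt_mul_of_pos_right h2 h9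
  rw [← h8] at h10
  linarith

end Run7.h227.JP
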